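import Mathlib
import Pool.Agent.Helper343.MY.Defs
import Pool.Agent.Helper343.MY.Final

/-!
# The March-Young bound with a universal constant in front of the Thomas-Fermi term

Conventions: `R^3` is `Fin 3 → ℝ` with Lebesgue measure, `g 0, g 1, g 2` are the weak partial
derivatives of `√ρ`, so `∑ k, ∫ |g k|²` is `∫ |∇ √ρ|²`; `φ i σ` is the spin component `σ` of the
`i`-th orbital, `Dφ i σ k` its weak partial derivatives; `kinetic` is the kinetic energy `T`, and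
`Kc = (3/5) (6 π²)^(2/3)`. The conjecture is the statement below with `A = 1`.
-/

namespace Pool.Agent.Results.MP_2c73ad_mp.UniformBound

open MeasureTheory MYoung

/-- There is a universal constant `A` such that for every number `q ≥ 1` of spin states, every
`N ≥ 1` and every density `ρ ≥ 0` with `∫ ρ = N` and `∇ √ρ ∈ L²` there is an admissible family
for `ρ` with kinetic energy at most `A q^(-2/3) Kc ∫ ρ^(5/3) + ∫ |∇ √ρ|²`. -/
theorem result : ∃ A : ℝ, 0 < A ∧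
    ∀ (q N : ℕ), 1 ≤ q → 1 ≤ N → ∀ (ρ : (Fin 3 → ℝ) → ℝ) (g : Fin 3 → (Fin 3 → ℝ) → ℝ),
      (∀ x, 0 ≤ ρ x) → Integrable ρ → (∫ x, ρ x) = N →
      (∀ k, MemLp (g k) 2) → (∀ k, WeakPartial k (fun x => Real.sqrt (ρ x)) (g k)) →
      ∃ (φ : Fin N → Fin q → (Fin 3 → ℝ) → ℂ) (Dφ : Fin N → Fin q → Fin 3 → (Fin 3 → ℝ) → ℂ),
        Admissible q N ρ φ Dφ ∧
        kinetic q N Dφ ≤
          ENNReal.ofReal (A * ((q : ℝ) ^ (-(2 / 3 : ℝ)) * Kc)) *
              (∫⁻ x, ENNReal.ofReal (ρ x) ^ (5 / 3 : ℝ)) +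
            ∑ k, (∫⁻ x, ‖g k x‖ₑ ^ 2) :=
  main

end Pool.Agent.Results.MP_2c73ad_mp.UniformBound
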